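import Pool.Agent.Y144.DL.Over6

/-!
# Deligne's conjecture with a rational factor for motives over ANY number field and ALL extensions, from ABELIAN twists

`k₀ ≤ k` are ANY number fields in `ℂ`, `d = [k : k₀]`, and `r₂ v` is the number of complex places of `k` above the real
place `v` of `k₀`. `F₁ / ℚ` is a finite Galois extension in `ℂ` which contains `k` and which is obtained from the
normal closure of `k` by adjoining square roots. `gal k₀ F₁ = Gal(F₁/k₀)`, `Fr p ∈ Gal(F₁/k₀)` is a Frobenius element at
the prime `p` of `k₀`, and `c v` is complex conjugation at the real place `v` of `k₀`. `M` is (the family of rational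
Frobenius traces of) a motive over `k₀` of rank `2 r` with RATIONAL coefficients and `d^+(M) = d^-(M) = r` at the real places
(for instance of odd weight); the primes ramified in `F₁` are left out of `M.P`, which changes the
values by rational Euler factors. `E` is an algebraic extension of `ℚ` which contains the roots of unity of order
`|Gal(F₁/k₀)|`. For a function `θ` on `Gal(F₁/k₀)` a term of `LOver M Fr θ m` is `L(M ⊗ θ, s)`: a meromorphic function on
`ℂ` with the Euler product of `M ⊗ θ`, holomorphic and nonzero at `m` (one for each embedding of the coefficients).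
For the permutation character `perm = Ind_k 1` it is the function `L(M_k, s)` of `M` considered over `k`, and `δ` is
the period of the Artin motive `Ind_k 1` over `ℚ` (`|d_k| ^ (1/2)` up to a power of `i` and a rational factor).
`q δ(1) ^ r` is Deligne's period of `Res_{k₀/ℚ} M`, and `ρ v` is the quotient of the periods `c^∓` of `M` at the
real place `v` of `k₀`.
-/

set_option autoImplicit false

open Pool.Agent.Y144.DL

attribute [local instance high] IntermediateField.algebra'

/-- Suppose (`TwistsOver`) that for each intermediate field `k' = F₁^H` of `F₁ / k₀` over which `F₁` is SOLVABLE and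
each character `χ` of `Gal(F₁/k')`
* the function `L(M_k' ⊗ χ, s) = L(M ⊗ Ind_H χ, s)` of the ABELIAN twist has a meromorphic continuation which is
  holomorphic and nonzero at `m`;
* relative rationality: for characters of `Gal(F₁/k')` with the same signs at the real places of `k'` the
  values at `m` have the quotient predicted by Deligne's conjecture, up to a factor in `E` (no relation between
  the periods over different fields is assumed),
and that, up to `E`, Deligne's conjecture holds at `m` for `M` and, for each real place `v` of `k₀`, for ONE twist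
`M ⊗ ψ_v` by a linear character which is odd at `v` and even at the other real places. Then `L(M_k, s)` has a
meromorphic continuation, holomorphic and nonzero at `m`, and `L(M_k, m)` is a nonzero RATIONAL multiple of Deligne's
period of `M_k`: `L(M_k, m) ∈ ℚ^× · q ^ d ∏_v ρ_v ^ (r₂ v) δ ^ r`. -/
theorem Pool.Agent.Results.MP_b696eb_nt.AllNumberFields.result
    (k₀ k : IntermediateField ℚ ℂ) [FiniteDimensional ℚ k₀] [FiniteDimensional ℚ k]
    (hk₀ : k₀ ≤ k) (d : ℕ) (hd : d * Module.finrank ℚ k₀ = Module.finrank ℚ k)
    (r₂ : RealPlace k₀ → ℕ)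
    (hr₂ : ∀ v, Nat.card {w : RealPlace k // ∀ x : k₀, w.1 ⟨x, hk₀ x.2⟩ = v.1 x} + 2 * r₂ v = d) :
    ∃ (F₁ : IntermediateField ℚ ℂ) (_ : FiniteDimensional ℚ F₁) (_ : Normal ℚ F₁) (h : k ≤ F₁),
      (∀ g ∈ gal (IntermediateField.normalClosure ℚ k ℂ) F₁, g * g = 1) ∧
      ∀ (E : Type) [Field E] [Algebra ℚ E] [Algebra.IsAlgebraic ℚ E]
        (_ : HasEnoughRootsOfUnity E (Nat.card (gal k₀ F₁))) (c : RealPlace k₀ → gal k₀ F₁)
        (_ : ∀ v, IsConjAt (hk₀.trans h) v (c v).1) (M : EulerData ℚ) (Fr : M.P → gal k₀ F₁) (m : ℂ)
        (A : ArtinPeriods E (gal k₀ F₁)) (r : ℕ) (q : ℂ) (ρ : RealPlace k₀ → ℂ)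
        (_ : TwistsOver (fun H : Subgroup (gal k₀ F₁) => Group.IsSolvable H) c (M.map E) Fr m A r
            (fun _ => q) (fun v _ => ρ v)) (δ : ℂ)
        (_ : Sim (A.δ (perm E ((gal k F₁).subgroupOf (gal k₀ F₁)))) fun _ => δ),
        ∃ X : LOver M Fr (perm ℚ ((gal k F₁).subgroupOf (gal k₀ F₁))) m, ∃ t : ℚ, t ≠ 0 ∧
          X.L (algebraMap ℚ ℂ) m = t * (q ^ d * (∏ v, ρ v ^ r₂ v) * δ ^ r) :=
  main_extension k₀ k hk₀ d hd r₂ hr₂
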