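import Pool.Agent.Y922.ZF.GenP

/-!
# The algebraic points at which motivic `L`-functions take period values are rare

Deligne's conjecture expresses the value of a motivic `L`-function `L(M, s)` at a critical integer by the period `c^+(M)`
and an algebraic number, a relation of degree one with one constant. We show for all finite families of `L`-functions
which are independent at the primes, in particular for the shifts `L(M, s + α_i)` of every motivic `L`-function, that
relative to arbitrary constants the (approximate) polynomial relations of bounded degree and polynomially bounded height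
between the numbers `π^s`, `Γ(s)`, `ψ(s), ψ'(s), …`, `L_y(s), L_y'(s), …` hold only at few algebraic points (tuples of
points) `s`. The proof contains the algebraic independence over `ℂ(s)` of these functions.
-/

set_option autoImplicit false

open NumberField

namespace Pool.Agent.Results.MP_b696eb_nt.AlmostAllPoints

/-- The elements of the number field `F` with image in `K` which are quotients of two integers of `F` all of whose
conjugates have absolute value at most `T`. -/
def Points (F : Type) [Field F] [NumberField F] (ι : F →+* ℂ) (K : Set ℂ) (T : ℝ) : Set F :=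
  {x | ι x ∈ K ∧ ∃ a b : 𝓞 F, b ≠ 0 ∧ (∀ φ : F →+* ℂ, ‖φ a‖ ≤ T ∧ ‖φ b‖ ≤ T) ∧ x = a / b}

/-- No nontrivial combination of the sequences `a_y` with coefficients which are polynomials in `log p` vanishes at all
primes `p`. -/
def Independent {Y : Type} [Fintype Y] (a : Y → ℕ → ℂ) : Prop :=
  ∀ c : Y → Polynomial ℂ, (∀ p : ℕ, p.Prime → ∑ y, (c y).eval ((Real.log p : ℝ) : ℂ) * a y p = 0) → c = 0

/-- The functions `L_y` are given by the Dirichlet series `∑ a_y(n) n^(-s)`, absolutely convergent, for `Re s > c`, and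
they are analytic on the connected set `U`, which contains all large real numbers and none of `0, -1, -2, …`. -/
structure Continued {Y : Type} (a : Y → ℕ → ℂ) (c : ℝ) (L : Y → ℂ → ℂ) (U : Set ℂ) : Prop where
  summable : ∀ y, ∀ s : ℂ, c < s.re → LSeriesSummable (a y) s
  eq_series : ∀ y, ∀ s : ℂ, c < s.re → L y s = LSeries (a y) s
  connected : IsPreconnected U
  real : ∀ᶠ s : ℝ in Filter.atTop, (s : ℂ) ∈ U
  no_pole : ∀ s ∈ U, ∀ k : ℕ, s ≠ -k
  analytic : ∀ y, AnalyticOnNhd ℂ (L y) U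

/-- The numbers `β_l^s`, `Γ(s)`, `ψ(s), ψ'(s), …, ψ^(w-1)(s)` and `L_y(s), L_y'(s), …, L_y^(w-1)(s)`. -/
noncomputable def values {Y : Type} {h : ℕ} (β : Fin h → ℝ) (L : Y → ℂ → ℂ) (w : ℕ) (s : ℂ) :
    Fin h ⊕ (Unit ⊕ (Fin w ⊕ (Y × Fin w))) → ℂ
  | Sum.inl l => (β l : ℂ) ^ s
  | Sum.inr (Sum.inl _) => Complex.Gamma s
  | Sum.inr (Sum.inr (Sum.inl k)) => iteratedDeriv k Complex.digamma s
  | Sum.inr (Sum.inr (Sum.inr x)) => iteratedDeriv x.2 (L x.1) s

/-- The `n`-tuples `t` of points of `F` for which there is a polynomial `P` of degree at most `d` in each variable, with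
coefficients of the form `∑ ξ_i ι(c_i)`, where the `c_i` are integers of `F` all of whose conjugates have absolute value
at most `T ^ A`, such that the value of `P` at the numbers `values β L w (t_j)`, `j ≤ n`, is at most `T ^ (-B)` times the
absolute value of some nonzero coefficient of `P`. -/
def Exceptional {Y : Type} {h : ℕ} (β : Fin h → ℝ) (L : Y → ℂ → ℂ) (w : ℕ) (n d : ℕ) {g : ℕ} (F : Type) [Field F] [NumberField F] (ι : F →+* ℂ)
    (ξ : Fin g → ℂ) (K : Set ℂ) (A B T : ℝ) : Set (Fin n → F) :=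
  {t | (∀ j, t j ∈ Points F ι K T) ∧ ∃ P : MvPolynomial (Fin n × (Fin h ⊕ (Unit ⊕ (Fin w ⊕ (Y × Fin w))))) ℂ,
    (∀ x, P.degreeOf x ≤ d) ∧
    (∀ s, ∃ c : Fin g → 𝓞 F, (∀ i (φ : F →+* ℂ), ‖φ (c i)‖ ≤ T ^ A) ∧ P.coeff s = ∑ i, ξ i * ι (c i)) ∧
    ∃ s₀, P.coeff s₀ ≠ 0 ∧
      ‖MvPolynomial.aeval (fun x : Fin n × (Fin h ⊕ (Unit ⊕ (Fin w ⊕ (Y × Fin w)))) => values β L w (ι (t x.1)) x.2) P‖ ≤
        T ^ (-B) * ‖P.coeff s₀‖}

/-- The first part of the main result. -/
theorem main {Y : Type} [Fintype Y] [DecidableEq Y] {h : ℕ} (β : Fin h → ℝ) (hβ0 : ∀ l, 0 < β l)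
    (hβ : ∀ v : Fin h → ℤ, (∃ x : ℚ, ∏ l, β l ^ v l = x) → v = 0) (a : Y → ℕ → ℂ) (hp : Independent a) (c : ℝ)
    (L : Y → ℂ → ℂ) (U : Set ℂ) (hc : Continued a c L U) (w m n g d : ℕ) (K : Set ℂ) (hK : IsCompact K) (hKU : K ⊆ U)
    (A ε : ℝ) (hε : 0 < ε) :
    ∃ B C T₀ : ℝ, ∀ (F : Type) [Field F] [NumberField F], Module.finrank ℚ F ≤ m → ∀ (ι : F →+* ℂ) (ξ : Fin g → ℂ)
      (T : ℝ), T₀ ≤ T → (Exceptional β L w n d F ι ξ K A B T).Finite ∧
        ((Exceptional β L w n d F ι ξ K A B T).ncard : ℝ) ≤ C * T ^ ε * ((Points F ι K T).ncard : ℝ) ^ (n - 1) := by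
  classical
  obtain ⟨B, C, T₀, hC, hT₀, H⟩ := Y124.excNF (h := Fin g) m n d (Y922.ZF.vP β L w) K (fun g' => Y922.ZF.oneP g' β hβ0 hβ a hp c hc.summable L hc.eq_series U hc.connected hc.real hc.no_pole hc.analytic w K hK hKU) A ε hε
  refine ⟨B, C, T₀, fun F _ _ hF ι ξ T hT => ?_⟩
  have hT0 : 0 ≤ T := by linarith
  have hP : Points F ι K T = {x : F | Y120.HtLe F T x ∧ ι x ∈ K} := by
    ext x
    constructor
    · rintro ⟨h1, a, b, hb, hab, hx⟩
      exact ⟨⟨a, b, hb, Y120.house_le F hT0 fun φ => (hab φ).1, Y120.house_le F hT0 fun φ => (hab φ).2, hx⟩, h1⟩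
    · rintro ⟨⟨a, b, hb, ha, hb', hx⟩, h1⟩
      exact ⟨h1, a, b, hb, fun φ => ⟨(Y120.house_ge F _ φ).trans ha, (Y120.house_ge F _ φ).trans hb'⟩, hx⟩
  have hval : ∀ (s : ℂ) y, values β L w s y = (Y922.ZF.vP β L w) s y := by
    intro s y
    rcases y with l | (x | (k | k)) <;> rfl
  have hsub : Exceptional β L w n d F ι ξ K A B T ⊆ Y124.ExcNF n d F ι ξ ((Y922.ZF.vP β L w)) K A B T := by
    rintro t ⟨ht, P, hPd, hPc, s₀, hs₀, hs⟩
    refine ⟨fun j => ?_, P, hPd, hPc, s₀, hs₀, ?_⟩
    · have h1 := ht j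
      rw [hP] at h1
      exact h1
    · simp only [hval] at hs
      exact hs
  obtain ⟨h1, h2⟩ := H F hF ι ξ T hT
  refine ⟨h1.subset hsub, ?_⟩
  rw [hP]
  exact le_trans (by exact_mod_cast Set.ncard_le_ncard hsub h1) h2


/-- **Main result.** 1. Let `β_1, …, β_h` be positive real numbers such that `∏ β_l ^ v_l` is irrational for all nonzero
`v ∈ ℤ^h` (for instance `h = 1` and `β_1 = π`, see `Y922.ZF.pi_ok`), let `L_y(s) = ∑ a_y(n) n^(-s)` be finitely many
Dirichlet series which are independent at the primes and analytic on a connected set `U` as in `Continued`, and let `K`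
be a compact subset of `U`. For all `w`, `m`, `n`, `g`, `d`, `A` and `ε > 0` there are `B`, `C`, `T₀` such that for every
number field `F` of degree at most `m`, every embedding of `F` in `ℂ`, all complex numbers `ξ_1, …, ξ_g` and all
`T ≥ T₀` the number of exceptional `n`-tuples is at most `C T^ε N^(n - 1)`, where `N` is the number of points.
2. For every sequence `a` which does not vanish at infinitely many primes (the coefficients of any motivic `L`-function,
by Chebotarev's theorem) and distinct real numbers `α_i` the coefficients `a(n) n^(-α_i)` of the shifted series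
`L(s + α_i)` are independent at the primes. -/
theorem result :
    (∀ (Y : Type) [Fintype Y] [DecidableEq Y] (h : ℕ) (β : Fin h → ℝ), (∀ l, 0 < β l) →
      (∀ v : Fin h → ℤ, (∃ x : ℚ, ∏ l, β l ^ v l = x) → v = 0) → ∀ (a : Y → ℕ → ℂ), Independent a →
      ∀ (c : ℝ) (L : Y → ℂ → ℂ) (U : Set ℂ), Continued a c L U → ∀ (w m n g d : ℕ) (K : Set ℂ), IsCompact K → K ⊆ U →
      ∀ A ε : ℝ, 0 < ε →
      ∃ B C T₀ : ℝ, ∀ (F : Type) [Field F] [NumberField F], Module.finrank ℚ F ≤ m → ∀ (ι : F →+* ℂ) (ξ : Fin g → ℂ)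
        (T : ℝ), T₀ ≤ T → (Exceptional β L w n d F ι ξ K A B T).Finite ∧
          ((Exceptional β L w n d F ι ξ K A B T).ncard : ℝ) ≤
            C * T ^ ε * ((Points F ι K T).ncard : ℝ) ^ (n - 1)) ∧
    (∀ (a : ℕ → ℂ), {p : ℕ | p.Prime ∧ a p ≠ 0}.Infinite → ∀ (r : ℕ) (α : Fin r → ℝ), Function.Injective α →
      Independent fun (i : Fin r) (n : ℕ) => a n * (n : ℂ) ^ (-(α i : ℂ))) :=
  ⟨fun _ _ _ _ β hβ0 hβ a hp c L U hc w m n g d K hK hKU A ε hε =>
      main β hβ0 hβ a hp c L U hc w m n g d K hK hKU A ε hε,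
    fun a ha _ α hα => Y922.ZF.PP_shift a ha α hα⟩

end Pool.Agent.Results.MP_b696eb_nt.AlmostAllPoints
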