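import Pool.Agent.Y691.TU.Rat

/-!
# Deligne's conjecture on critical values with rational coefficients and hypergraphs
-/

set_option autoImplicit false

open CategoryTheory CategoryTheory.Limits AlgebraicGeometry Pool.Agent.Y116.UV
  Pool.Agent.Y101.Th Pool.Agent.Y691.TU

namespace Pool.Agent.Results.MP_b696eb_nt.CubicHypersurfaces

universe v u

/-- **Deligne's conjecture with rational coefficients and cubic hypersurfaces.** Let `C` be the
category of motives for absolute Hodge cycles over `ℚ`, `D` the graded pieces `gr^W_w H^j_c(X)` as
objects of `C`, and `T` the data of Deligne's conjecture, with their known properties; `artin` is the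
known case of the Artin motives and their Tate twists (Siegel, Klingen). Deligne's conjecture is true
for all motives in `C` if and only if it is true for all Tate twists of all direct summands of the
pieces of the smooth affine cubic hypersurfaces `∑_{(i, j, l) ∈ S} x_i y_j z_l = 1` over `ℚ`; for each
`n` it is true for all Tate twists of all direct summands of the cohomology of the smooth projective
schemes of dimension at most `n` if and only if this is true for the hypersurfaces with `n + 2`
variables `z_l`; and it is true for all Tate twists of all direct summands of the pieces of the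
hypersurfaces `t(x, y, z) = 1` for the trilinear forms `t` over `ℚ` with a block of at most two
variables. -/
theorem result {C : Type u} [Category.{v} C] [Abelian C] {D : Graded ℚ C}
    [D.L.IsEquivalence] {T : RatValues C} (hk : Resolution ℚ) (hC : Semisimple C)
    (hD : IsGraded D) (hG : ∀ M : C, Gen D M) (hT : IsRatValues T)
    (artin : ∀ X : Sch ℚ, SmProj X → topologicalKrullDim X.left ≤ 0 → ∀ i,
      Every D.L (DeligneRat T) (D.H X i i)) :
    ((∀ M : C, DeligneRat T M) ↔
      ∀ (a b c : ℕ) (S : Finset (Fin a × Fin b × Fin c)) (w j : ℤ),
        Every D.L (DeligneRat T) (D.H (tripS ℚ S) w j)) ∧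
    (∀ n : ℕ,
      (∀ X : Sch ℚ, SmProj X → topologicalKrullDim X.left ≤ n → ∀ i,
          Every D.L (DeligneRat T) (D.H X i i)) ↔
        ∀ (a b : ℕ) (S : Finset (Fin a × Fin b × Fin (n + 2))) (w j : ℤ),
          Every D.L (DeligneRat T) (D.H (tripS ℚ S) w j)) ∧
    ∀ (a b c : ℕ) (t : Fin a → Fin b → Fin c → ℚ), (a ≤ 2 ∨ b ≤ 2 ∨ c ≤ 2) →
      ∀ w j, Every D.L (DeligneRat T) (D.H (hypS t) w j) := by
  have h1 := every_unit hk hD artin
  refine ⟨every_frac isFrac_rat hk hC hD hG (additive_rat hT) h1,
    every_dim_frac isFrac_rat hk hC hD (additive_rat hT) h1, ?_⟩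
  exact (every_dim hk hC hD (additive_rat hT) h1 0).mp (by exact_mod_cast artin)

end Pool.Agent.Results.MP_b696eb_nt.CubicHypersurfaces
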