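import Pool.Agent.Y144.DL.AbnThm

/-!
# Deligne's conjecture with a rational factor for nonabelian rational twists, from ABELIAN twists

`F / ℚ` is a finite Galois extension with group `G` and complex conjugation `c`. `N` is a normal subgroup of
odd order such that `c` is central modulo `N` (`F^N` is totally real or CM and `F` has odd degree over it), and
`Z` is any abelian normal subgroup of `G` (for instance `Z = ⟨c⟩` if `F` is CM, `Z = N` if `N` is abelian).
`M` is (the family of rational Frobenius traces of) a motive over `ℚ` with RATIONAL coefficients and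
`d^+(M) = d^-(M) = r`, and `Fr p ∈ G` is a Frobenius element at `p`; the traces at the primes ramified in `F` are set
equal to zero, which changes the values by rational Euler factors. `E` is an algebraic extension of `ℚ` which
contains the roots of unity of order `|G|`. A term of `LAt M Fr θ m` is `L(s, M ⊗ θ)`: a meromorphic function
on `ℂ` with the Euler product of `M ⊗ θ`, holomorphic and nonzero at `m` (one for each embedding of the
coefficients); `A.δ χ` is the period of the Artin motive `χ`.
-/

set_option autoImplicit false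

open Pool.Agent.Y144.DL

/-- Suppose (`AbelianTwists`) that for each subfield `k = F^H` of `F^Z` over which `F` is SOLVABLE and each
character `χ` of `Gal(F/k)`

* the function `L(s, M_k ⊗ χ) = L(s, M ⊗ Ind_H χ)` of the ABELIAN twist has a meromorphic continuation which is
  holomorphic and nonzero at `m`;
* relative rationality: for characters of `Gal(F/k)` with the same signs at the real places of `k` the values at
  `m` have the quotient predicted by Deligne's conjecture, up to a factor in `E`,

and that, up to `E`, Deligne's conjecture holds at `m` for `M` and, if `c ≠ 1`, for ONE twist `M ⊗ ψ` by an odd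
Dirichlet character. Then for ALL rational representations of `G` (character `θ`, `a` and `b` the dimensions of the
eigenspaces of complex conjugation) `L(s, M ⊗ θ)` has a meromorphic continuation, holomorphic and nonzero at `m`,
and `L(m, M ⊗ θ)` is a nonzero RATIONAL multiple of Deligne's period `c_P ^ a c_M ^ b δ(θ) ^ r`. -/
theorem Pool.Agent.Results.MP_b696eb_nt.RationalTwists.result
    {E : Type} [Field E] [Algebra ℚ E] [Algebra.IsAlgebraic ℚ E] {G : Type} [Group G] [Finite G]
    (hE : HasEnoughRootsOfUnity E (Nat.card G)) (c : G) (N Z : Subgroup G) (hN : N.Normal)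
    (hodd : Odd (Nat.card N)) (hcN : ∀ g : G, g * c * g⁻¹ * c⁻¹ ∈ N) (hcc : c * c = 1)
    (hZ : Z.Normal) (hZab : ∀ x ∈ Z, ∀ y ∈ Z, x * y = y * x)
    (M : FrobData ℚ) (Fr : Nat.Primes → G) (m : ℂ) (A : ArtinPeriods E G) (r : ℕ) (cP cM : ℂ)
    (h : AbelianTwists (fun H : Subgroup G => Group.IsSolvable H ∧ Z ≤ H) c (M.map E) Fr m A r
      (fun _ => cP) (fun _ => cM))
    (θ : G → ℚ) (hθ : IsChar θ) (a b : ℕ) (ha : θ 1 = a + b) (hb : θ c = a - b)
    (d : ℂ) (hd : ∀ σ, A.δ (fun g => algebraMap ℚ E (θ g)) σ = d) :
    ∃ X : LAt M Fr θ m, ∃ q : ℚ, q ≠ 0 ∧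
      X.L (algebraMap ℚ ℂ) m = q * (cP ^ a * cM ^ b * d ^ r) := by
  obtain ⟨X, q, hq, h2⟩ := main_Z (K := ℚ) hE hN hodd hcN hcc hZ hZab (cP := fun _ => cP)
    (cM := fun _ => cM) h θ hθ a b ha hb (fun _ => d) (funext hd)
  refine ⟨X, q, hq, ?_⟩
  have h3 := h2 (algebraMap ℚ ℂ)
  have h4 : X.value (algebraMap ℚ ℂ) = X.L (algebraMap ℚ ℂ) m := rfl
  rw [← h4, h3]
  simp
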